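import Pool.Agent.Y703.XK.Stm

/-! XK-KEY of helper703 (by helper161): the sum over the boxes (after `Pool.Agent.Y302.CQ.KEY`). -/

set_option autoImplicit false

open scoped Classical

namespace Pool.Agent.Y161.XK

open Finset
open Pool.Agent.Y692.QS (Ei)
open Pool.Agent.Y715.T.Rec (cs)
open Pool.Agent.Y715.T.RecG (Pq)
open Pool.Agent.Y699.E (ez nrm QB mem_QB SB mem_SB card_SB_le PS_prod PS PS.ne nrm_mul nrm_one
  nrm_pos' pq_ne mem_ZB)
open Pool.Agent.Y703.CX (jj XX)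
open Pool.Agent.Y703.XK

attribute [local irreducible] Pool.Agent.Y699.E.nrm

theorem dnn (X n : ℕ) : (0 : ℝ) ≤ (X : ℝ) / (n : ℝ) :=
  div_nonneg (Nat.cast_nonneg _) (Nat.cast_nonneg _)

theorem onn (n : ℕ) : (0 : ℝ) ≤ 1 / (n : ℝ) := div_nonneg zero_le_one (Nat.cast_nonneg _)

theorem fcc {α : Type} {s : Finset α} {p q : α → Prop} {i : DecidablePred p} {j : DecidablePred q}
    (h : ∀ x ∈ s, (p x ↔ q x)) : (s.filter p).card = (s.filter q).card := by
  rw [Finset.filter_congr h]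

theorem nrm_prod (S : Finset Ei) : nrm (∏ π ∈ S, π) = ∏ π ∈ S, nrm π := by
  induction S using Finset.induction_on with
  | empty => simp [nrm_one]
  | insert a S ha ih => rw [Finset.prod_insert ha, Finset.prod_insert ha, nrm_mul, ih]

/-- the class of a large prime -/
noncomputable def ph (H : ℕ) (p : Ei) : ℕ × ℕ := (bl H p, nrm p % 9)

/-- the key of a set -/
noncomputable def ky (z H : ℕ) (S : Finset Ei) : Finset Ei × Finset (ℕ × ℕ) :=
  (sm z S, (la z S).image (ph H))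

/-- the keys which occur -/
structure KP (X z H k V : ℕ) (S₀ : Finset Ei) (J : Finset (ℕ × ℕ)) : Prop where
  cl : ∀ q ∈ S₀, Pq q
  le : ∀ q ∈ S₀, nrm q ≤ z
  m1 : ((∏ p ∈ S₀, nrm p) * ∏ e ∈ J, e.2) % 9 ≠ 1
  inj : Set.InjOn Prod.fst (J : Set (ℕ × ℕ))
  card : S₀.card + J.card ≤ k
  prod : (∏ p ∈ S₀, nrm p) * ∏ e ∈ J, XX H e.1 ≤ X
  few : S₀.card + V < J.card

theorem le_XX {H p : ℕ} (hH : 1 ≤ H) (hp : 1 ≤ p) : p ≤ XX H (jj H p) := by
  unfold XX
  apply Nat.le_floor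
  have hp0 : (0 : ℝ) < p := by exact_mod_cast hp
  have hH0 : (0 : ℝ) < H := by exact_mod_cast hH
  have h1 : (H : ℝ) * Real.log p < (jj H p : ℝ) + 1 := Nat.lt_floor_add_one _
  have h2 : Real.log p ≤ ((jj H p : ℝ) + 1) / H := by
    rw [le_div_iff₀ hH0]
    linarith
  calc (p : ℝ) = Real.exp (Real.log p) := (Real.exp_log hp0).symm
    _ ≤ _ := Real.exp_le_exp.2 h2

theorem pos_of {p : Ei} (h : Pq p) : 0 < nrm p := nrm_pos' (pq_ne h)

theorem sm_la_card (z : ℕ) (S : Finset Ei) : (sm z S).card + (la z S).card = S.card :=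
  Finset.card_filter_add_card_filter_not _

theorem sm_la_prod (z : ℕ) (S : Finset Ei) :
    (∏ p ∈ sm z S, nrm p) * ∏ p ∈ la z S, nrm p = ∏ p ∈ S, nrm p :=
  Finset.prod_filter_mul_prod_filter_not S (fun p => nrm p ≤ z) fun p => nrm p

theorem rr_iff {X z H k V : ℕ} (hH : 1 ≤ H) {S : Finset Ei}
    (hS : ∀ q ∈ S, Pq q)
    (hi : Set.InjOn (ph H) (la z S : Set Ei)) :
    S ∈ RR X z H k V ↔ KP X z H k V (ky z H S).1 (ky z H S).2 := by
  set J := (la z S).image (ph H) with hJ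
  have hky : ky z H S = (sm z S, J) := rfl
  rw [hky]
  have f2 : J.card = (la z S).card := Finset.card_image_of_injOn hi
  have f6 : ∏ e ∈ J, e.2 = ∏ p ∈ la z S, nrm p % 9 := by
    rw [hJ, Finset.prod_image hi]
    rfl
  have f7 : (∏ p ∈ S, nrm p) % 9 = ((∏ p ∈ sm z S, nrm p) * ∏ e ∈ J, e.2) % 9 := by
    rw [f6, ← sm_la_prod z S, Nat.mul_mod, Finset.prod_nat_mod (la z S) 9 nrm, ← Nat.mul_mod]
  have f8 : ∏ e ∈ J, XX H e.1 = ∏ p ∈ la z S, XX H (bl H p) := by
    rw [hJ, Finset.prod_image hi]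
    rfl
  have f9 : Set.InjOn (bl H) (la z S : Set Ei) ↔ Set.InjOn Prod.fst (J : Set (ℕ × ℕ)) := by
    constructor
    · intro h a ha b hb hab
      rw [Finset.mem_coe, hJ, Finset.mem_image] at ha hb
      obtain ⟨p, hp, rfl⟩ := ha
      obtain ⟨q, hq, rfl⟩ := hb
      rw [h (Finset.mem_coe.2 hp) (Finset.mem_coe.2 hq) hab]
    · intro h p hp q hq hpq
      exact hi hp hq (h (Finset.mem_coe.2 (Finset.mem_image_of_mem _ (Finset.mem_coe.1 hp)))
        (Finset.mem_coe.2 (Finset.mem_image_of_mem _ (Finset.mem_coe.1 hq))) hpq)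
  have hsm : sm z S ⊆ S := Finset.filter_subset _ _
  have hla : la z S ⊆ S := Finset.filter_subset _ _
  constructor
  · intro h
    unfold RR at h
    rw [Finset.mem_filter] at h
    obtain ⟨h1, h2, h3, h4, h5⟩ := h
    unfold SS at h1
    rw [Finset.mem_filter] at h1
    obtain ⟨-, ⟨h6, h7⟩, h10⟩ := h1
    refine ⟨fun q hq => h6 q (hsm hq), fun q hq => (Finset.mem_filter.1 hq).2, ?_,
      f9.1 h2, ?_, ?_, ?_⟩
    · rw [← f7]
      exact h7
    · rw [f2, sm_la_card]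
      exact h3
    · rw [f8]
      exact h4
    · rw [f2]
      exact h5
  · rintro ⟨k1, k2, k4, k7, k8, k9, k10⟩
    have hprod : ∏ p ∈ S, nrm p ≤ X := by
      rw [← sm_la_prod z S]
      refine le_trans (Nat.mul_le_mul_left _ ?_) k9
      rw [f8]
      refine Finset.prod_le_prod' fun p hp => le_XX hH (pos_of (hS p (hla hp)))
    unfold RR SS
    rw [Finset.mem_filter, Finset.mem_filter, Finset.mem_powerset]
    refine ⟨⟨?_, ⟨hS, ?_⟩, hprod⟩, f9.2 k7, ?_, ?_, ?_⟩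
    · intro q hq
      rw [mem_QB]
      have h1 : nrm q ∣ ∏ p ∈ S, nrm p := Finset.dvd_prod_of_mem _ hq
      have h2 : 0 < ∏ p ∈ S, nrm p := Finset.prod_pos fun p hp => pos_of (hS p hp)
      exact ⟨(Nat.le_of_dvd h2 h1).trans hprod, hS q hq⟩
    · rw [f7]
      exact k4
    · rw [← sm_la_card z S, ← f2]
      exact k8
    · rw [← f8]
      exact k9
    · rw [← f2]
      exact k10

/-- the primes of a block -/
noncomputable def CC (z H : ℕ) (e : ℕ × ℕ) : Finset Ei :=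
  (QB (XX H e.1)).filter fun p => z < nrm p ∧ ph H p = e

theorem mem_CC {z H : ℕ} (hH : 1 ≤ H) {e : ℕ × ℕ} {p : Ei} :
    p ∈ CC z H e ↔ Pq p ∧ z < nrm p ∧ ph H p = e := by
  unfold CC
  rw [Finset.mem_filter, mem_QB]
  constructor
  · exact fun h => ⟨h.1.2, h.2⟩
  · intro h
    refine ⟨⟨?_, h.1⟩, h.2⟩
    have := le_XX hH (pos_of h.1)
    have h2 : jj H (nrm p) = e.1 := congrArg Prod.fst h.2.2
    rw [h2] at this
    exact this

section fill
variable {z H : ℕ} {S₀ : Finset Ei} {J : Finset (ℕ × ℕ)} {p : J → Ei}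

theorem sm_fill (hH : 1 ≤ H) (h₀ : ∀ q ∈ S₀, nrm q ≤ z) (hp : ∀ i : J, p i ∈ CC z H i) :
    sm z (S₀ ∪ univ.image p) = S₀ := by
  ext q
  unfold sm
  rw [Finset.mem_filter, Finset.mem_union, Finset.mem_image]
  constructor
  · rintro ⟨h | ⟨i, -, rfl⟩, h2⟩
    · exact h
    · have := ((mem_CC hH).1 (hp i)).2.1
      omega
  · exact fun h => ⟨Or.inl h, h₀ q h⟩

theorem la_fill (hH : 1 ≤ H) (h₀ : ∀ q ∈ S₀, nrm q ≤ z) (hp : ∀ i : J, p i ∈ CC z H i) :
    la z (S₀ ∪ univ.image p) = univ.image p := by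
  ext q
  unfold la
  rw [Finset.mem_filter, Finset.mem_union, Finset.mem_image]
  constructor
  · rintro ⟨h | h, h2⟩
    · exact absurd (h₀ q h) h2
    · exact h
  · rintro ⟨i, -, rfl⟩
    have := ((mem_CC hH).1 (hp i)).2.1
    exact ⟨Or.inr ⟨i, Finset.mem_univ _, rfl⟩, by omega⟩

theorem ph_fill (hH : 1 ≤ H) (hp : ∀ i : J, p i ∈ CC z H i) (i : J) : ph H (p i) = i :=
  ((mem_CC hH).1 (hp i)).2.2

theorem im_fill (hH : 1 ≤ H) (hp : ∀ i : J, p i ∈ CC z H i) :
    (univ.image p).image (ph H) = J := by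
  ext k
  rw [Finset.mem_image]
  constructor
  · rintro ⟨q, hq, rfl⟩
    rw [Finset.mem_image] at hq
    obtain ⟨i, -, rfl⟩ := hq
    rw [ph_fill hH hp]
    exact i.2
  · intro hk
    exact ⟨p ⟨k, hk⟩, Finset.mem_image_of_mem _ (Finset.mem_univ _), ph_fill hH hp ⟨k, hk⟩⟩

theorem ky_fill (hH : 1 ≤ H) (h₀ : ∀ q ∈ S₀, nrm q ≤ z) (hp : ∀ i : J, p i ∈ CC z H i) :
    ky z H (S₀ ∪ univ.image p) = (S₀, J) := by
  unfold ky
  rw [sm_fill hH h₀ hp, la_fill hH h₀ hp, im_fill hH hp]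

theorem inj_fill (hH : 1 ≤ H) (h₀ : ∀ q ∈ S₀, nrm q ≤ z) (hp : ∀ i : J, p i ∈ CC z H i) :
    Set.InjOn (ph H) (la z (S₀ ∪ univ.image p) : Set Ei) := by
  rw [la_fill hH h₀ hp]
  intro a ha b hb hab
  rw [Finset.mem_coe, Finset.mem_image] at ha hb
  obtain ⟨i, -, rfl⟩ := ha
  obtain ⟨j, -, rfl⟩ := hb
  rw [ph_fill hH hp, ph_fill hH hp] at hab
  rw [Subtype.ext hab]

end fill

theorem rr_facts {X z H k V : ℕ} {S : Finset Ei} (hS : S ∈ RR X z H k V) :
    (∀ q ∈ S, Pq q) ∧ Set.InjOn (bl H) (la z S : Set Ei) ∧ ∏ p ∈ S, nrm p ≤ X := by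
  unfold RR SS at hS
  rw [Finset.mem_filter, Finset.mem_filter] at hS
  exact ⟨hS.1.2.1.1, hS.2.1, hS.1.2.2⟩

theorem inj_ph {H : ℕ} {A : Set Ei} (h : Set.InjOn (bl H) A) : Set.InjOn (ph H) A :=
  fun _ ha _ hb hab => h ha hb (congrArg Prod.fst hab)

theorem key_bij {X z H k V : ℕ} (hH : 1 ≤ H) {S₀ : Finset Ei}
    {J : Finset (ℕ × ℕ)}
    (hkey : KP X z H k V S₀ J) (P : Finset Ei → Prop) [DecidablePred P] [DecidableEq J] :
    ((Fintype.piFinset fun i : J => CC z H i).filter fun p => P (S₀ ∪ univ.image p)).card =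
      ((RR X z H k V).filter fun S => ky z H S = (S₀, J) ∧ P S).card := by
  have h₀ := hkey.le
  apply Finset.card_bij (fun (p : J → Ei) _ => S₀ ∪ univ.image p)
  · intro p hp
    rw [Finset.mem_filter, Fintype.mem_piFinset] at hp
    obtain ⟨hp, hP⟩ := hp
    have hk := ky_fill hH h₀ hp
    rw [Finset.mem_filter]
    refine ⟨?_, hk, hP⟩
    rw [rr_iff hH _ (inj_fill hH h₀ hp), hk]
    · exact hkey
    · intro q hq
      rw [Finset.mem_union, Finset.mem_image] at hq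
      rcases hq with hq | ⟨i, -, rfl⟩
      · exact hkey.cl q hq
      · exact ((mem_CC hH).1 (hp i)).1
  · intro p hp p' hp' h
    rw [Finset.mem_filter, Fintype.mem_piFinset] at hp hp'
    have h1 := la_fill hH h₀ hp.1
    rw [h, la_fill hH h₀ hp'.1] at h1
    funext i
    have h2 : p i ∈ univ.image p' := by
      rw [h1]
      exact Finset.mem_image_of_mem _ (Finset.mem_univ _)
    rw [Finset.mem_image] at h2
    obtain ⟨j, -, hj⟩ := h2
    have h3 := ph_fill hH hp.1 i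
    have h4 := ph_fill hH hp'.1 j
    rw [hj, h3] at h4
    rw [← hj, Subtype.ext h4]
  · intro S hS
    rw [Finset.mem_filter] at hS
    obtain ⟨hSR, hSk, hSP⟩ := hS
    obtain ⟨hSO, hSI, -⟩ := rr_facts hSR
    have hk1 : sm z S = S₀ := congrArg Prod.fst hSk
    have hk2 : (la z S).image (ph H) = J := congrArg Prod.snd hSk
    have hex : ∀ i : J, ∃ q ∈ la z S, ph H q = i := by
      rintro ⟨i, hi⟩
      rw [← hk2, Finset.mem_image] at hi
      exact hi
    choose p hp1 hp2 using hex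
    have him : univ.image p = la z S := by
      ext q
      rw [Finset.mem_image]
      constructor
      · rintro ⟨i, -, rfl⟩
        exact hp1 i
      · intro hq
        have hjq : ph H q ∈ J := by
          rw [← hk2]
          exact Finset.mem_image_of_mem _ hq
        exact ⟨⟨ph H q, hjq⟩, Finset.mem_univ _, inj_ph hSI (Finset.mem_coe.2 (hp1 _))
          (Finset.mem_coe.2 hq) (hp2 ⟨ph H q, hjq⟩)⟩
    have hSe : S₀ ∪ univ.image p = S := by
      rw [him, ← hk1]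
      unfold sm la
      exact Finset.filter_union_filter_not_eq _ _
    refine ⟨p, ?_, hSe⟩
    rw [Finset.mem_filter, Fintype.mem_piFinset, hSe]
    refine ⟨fun i => (mem_CC hH).2 ⟨hSO _ (Finset.mem_filter.1 (hp1 i)).1,
      not_le.1 (Finset.mem_filter.1 (hp1 i)).2, hp2 i⟩, hSP⟩

theorem CC_facts {z H : ℕ} {e : ℕ × ℕ} {p : Ei}
    (hp : p ∈ CC z H e) :
    Pq p ∧ z < nrm p ∧ nrm p ≤ XX H e.1 := by
  unfold CC at hp
  rw [Finset.mem_filter, mem_QB] at hp
  exact ⟨hp.1.2, hp.2.1, hp.1.1⟩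

theorem CC_disj {z H : ℕ} (hH : 1 ≤ H) {J : Finset (ℕ × ℕ)} (i l : J)
    (hil : i ≠ l) : Disjoint (CC z H i) (CC z H l) := by
  rw [Finset.disjoint_left]
  intro p hp hp'
  have h5 := ((mem_CC hH).1 hp).2.2
  have h6 := ((mem_CC hH).1 hp').2.2
  exact hil (Subtype.ext (h5.symm.trans h6))

theorem pq_PS {p : Ei} (h : Pq p) : PS p := by
  have h1 := (PS_prod (S := {p}) (by
    intro q hq
    rw [Finset.mem_singleton] at hq
    rw [hq]
    exact h)).1
  rw [Finset.prod_singleton] at h1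
  exact h1

theorem card_QB {M : ℕ} : (QB M).card ≤ 16 * M := by
  rcases Nat.eq_zero_or_pos M with h | h
  · subst h
    have h0 : QB 0 = ∅ := by
      rw [Finset.eq_empty_iff_forall_notMem]
      intro p hp
      rw [mem_QB] at hp
      have := pos_of hp.2
      omega
    rw [h0, Finset.card_empty]
  · have h1 : QB M ⊆ SB M := by
      intro p hp
      rw [mem_QB] at hp
      exact mem_SB.2 ⟨hp.1, pq_PS hp.2⟩
    have h2 := card_SB_le h
    have h3 : (SB M).card ≤ 16 * M := by exact_mod_cast h2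
    exact (Finset.card_le_card h1).trans h3

theorem card_CC (z H : ℕ) (e : ℕ × ℕ) : (CC z H e).card ≤ 16 * XX H e.1 :=
  (Finset.card_filter_le _ _).trans card_QB

theorem root24 {x κ C A B z : ℝ} (_hx : 0 ≤ x) (hκ : 0 ≤ κ) (hA : 0 ≤ A) (hB : 0 ≤ B) (hz : 0 < z)
    (h : x ^ 24 * z ≤ C * (A * B) ^ 24) (hC : C ≤ κ ^ 24 * z) : x ≤ κ * (A * B) := by
  have h1 : x ^ 24 * z ≤ (κ * (A * B)) ^ 24 * z := by
    refine h.trans ?_
    have h2 : 0 ≤ (A * B) ^ 24 := by positivity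
    have h3 := mul_le_mul_of_nonneg_right hC h2
    refine h3.trans (le_of_eq ?_)
    ring
  have h2 : x ^ 24 ≤ (κ * (A * B)) ^ 24 := le_of_mul_le_mul_right h1 hz
  exact le_of_pow_le_pow_left₀ (by norm_num) (by positivity) h2

theorem hb_box {C₁ : ℝ}
    (h1 : ∀ (P Q : Finset Ei) (A B z : ℕ) (c d : Ei → ℂ) (a : ZMod 3),
      (∀ π ∈ P, Pq π ∧ nrm π ≤ A) → (∀ ρ ∈ Q, Pq ρ ∧ nrm ρ ≤ B) → Disjoint P Q → a ≠ 0 →
      1 ≤ z → z ≤ A → z ≤ B → (∀ π, ‖c π‖ ≤ 1) → (∀ ρ, ‖d ρ‖ ≤ 1) →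
      ‖∑ π ∈ P, ∑ ρ ∈ Q, c π * d ρ * ez (a * cs π ρ)‖ ^ 24 * z ≤ C₁ * ((A : ℝ) * B) ^ 24)
    {z H : ℕ} (hH : 1 ≤ H) (hz : 1 ≤ z) {κ : ℝ} (hκ : 0 ≤ κ) (hκ1 : C₁ ≤ κ ^ 24 * z)
    {J : Finset (ℕ × ℕ)} :
    HB (fun i : J => CC z H i) (fun i => 16 * XX H i.1.1) κ := by
  intro i l hil a c d ha hc hd
  show ‖∑ x ∈ CC z H i, ∑ y ∈ CC z H l, c x * d y * ez (a * cs x y)‖ ≤
    κ * (((16 * XX H i.1.1 : ℕ) : ℝ) * ((16 * XX H l.1.1 : ℕ) : ℝ))
  have hz0 : (0 : ℝ) < z := by exact_mod_cast hz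
  have hk0 : (0 : ℝ) ≤ κ * (((16 * XX H i.1.1 : ℕ) : ℝ) * ((16 * XX H l.1.1 : ℕ) : ℝ)) := by
    positivity
  rcases (CC z H i).eq_empty_or_nonempty with he | ⟨p₀, hp₀⟩
  · rw [he, Finset.sum_empty, norm_zero]
    exact hk0
  rcases (CC z H l).eq_empty_or_nonempty with he | ⟨q₀, hq₀⟩
  · rw [he]
    simp only [Finset.sum_empty, Finset.sum_const_zero, norm_zero]
    exact hk0
  have hzi : z ≤ XX H i.1.1 := by
    have := CC_facts hp₀
    omega
  have hzl : z ≤ XX H l.1.1 := by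
    have := CC_facts hq₀
    omega
  have h3 := h1 (CC z H i) (CC z H l) (XX H i.1.1) (XX H l.1.1) z c d a
    (fun p hp => ⟨(CC_facts hp).1, (CC_facts hp).2.2⟩)
    (fun p hp => ⟨(CC_facts hp).1, (CC_facts hp).2.2⟩)
    (CC_disj hH i l hil) ha hz hzi hzl hc hd
  refine (root24 (norm_nonneg _) hκ (Nat.cast_nonneg _) (Nat.cast_nonneg _) hz0 h3 hκ1).trans ?_
  apply mul_le_mul_of_nonneg_left _ hκ
  push_cast
  have e1 : (0 : ℝ) ≤ XX H i.1.1 := Nat.cast_nonneg _
  have e2 : (0 : ℝ) ≤ XX H l.1.1 := Nat.cast_nonneg _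
  nlinarith [mul_nonneg e1 e2]

theorem box_dec (hBOX : S_BOX) (hEQ : S_EQ) (hLA : S_LA) (ι : Type) [Fintype ι]
    [inst : DecidableEq ι] (lo : LinearOrder ι)
    (C : ι → Finset Ei) (X : ι → ℕ) (κ : ℝ) (S₀ : Finset Ei) (h1 : 0 ≤ κ)
    (h2 : ∀ i, (C i).card ≤ X i) (h3 : HB C X κ) (h4 : ∀ u ∈ S₀, Pq u)
    (h5 : ∀ i, ∀ p ∈ C i, Pq p ∧ p ∉ S₀)
    (h6 : ∀ i l, i ≠ l → Disjoint (C i) (C l)) (h7 : S₀.card < Fintype.card ι) :
    |(((Fintype.piFinset C).filter fun p => Nd S₀ (univ.image p) ∧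
        Gd (S₀ ∪ univ.image p)).card : ℝ) -
      c9 * (((Fintype.piFinset C).filter fun p => Nd S₀ (univ.image p)).card : ℝ)| ≤
    3 * (3 ^ S₀.card / 3 ^ Fintype.card ι) *
      (((Fintype.piFinset C).filter fun p => Nd S₀ (univ.image p)).card : ℝ) +
    3 ^ (S₀.card * Fintype.card ι + (prs ι).card) * (κ * ∏ j, (X j : ℝ)) := by
  have h := hBOX hEQ hLA ι C X κ S₀ h1 h2 h3 h4 h5 h6 h7
  have hi : inst = (fun a b => lo.toDecidableEq a b) := Subsingleton.elim _ _
  subst hi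
  exact h

theorem prs_card {ι : Type} [Fintype ι] [LinearOrder ι] :
    (prs ι).card ≤ Fintype.card ι * Fintype.card ι := by
  unfold prs
  refine (Finset.card_filter_le _ _).trans ?_
  rw [Finset.card_univ, Fintype.card_prod]

theorem per_key (hBOX : S_BOX) (hEQ : S_EQ) (hLA : S_LA)
    {X z H k V : ℕ} (hH : 1 ≤ H)
    {κ : ℝ} (hκ : 0 ≤ κ) {S₀ : Finset Ei} {J : Finset (ℕ × ℕ)} (hk : KP X z H k V S₀ J)
    (hHB : HB (fun i : J => CC z H i) (fun i => 16 * XX H i.1.1) κ) :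
    |(((RR X z H k V).filter fun S => ky z H S = (S₀, J) ∧
        (Nd (sm z S) (la z S) ∧ Gd S)).card : ℝ) -
      c9 * (((RR X z H k V).filter fun S => ky z H S = (S₀, J) ∧
        Nd (sm z S) (la z S)).card : ℝ)| ≤
    3 * (1 / 3 : ℝ) ^ V *
        (((RR X z H k V).filter fun S => ky z H S = (S₀, J)).card : ℝ) +
      (3 ^ (9 * k ^ 2) * κ) * (X / ((∏ p ∈ S₀, nrm p : ℕ) : ℝ)) := by
  have hfew := hk.few
  have hinj : Function.Injective (fun i : J => i.1.1) := by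
    intro a b hab
    exact Subtype.ext (hk.inj (Finset.mem_coe.2 a.2) (Finset.mem_coe.2 b.2) hab)
  let lo : LinearOrder J := LinearOrder.lift' (fun i : J => i.1.1) hinj
  have hcJ : Fintype.card J = J.card := Fintype.card_coe J
  have hbox := box_dec hBOX hEQ hLA J lo (fun i => CC z H i) (fun i => 16 * XX H i.1.1) κ S₀ hκ
    (fun i => card_CC z H i)
    hHB (fun u hu => hk.cl u hu)
    (fun i p hp => by
      obtain ⟨h3, h4, h5⟩ := CC_facts hp
      refine ⟨h3, fun h => ?_⟩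
      have := hk.le p h
      omega)
    (fun i l hil => CC_disj hH i l hil)
    (by
      rw [hcJ]
      omega)
  have e1 : ((Fintype.piFinset fun i : J => CC z H i).filter fun p => Nd S₀ (univ.image p) ∧
      Gd (S₀ ∪ univ.image p)).card = ((RR X z H k V).filter fun S => ky z H S = (S₀, J) ∧
        (Nd (sm z S) (la z S) ∧ Gd S)).card := by
    rw [← key_bij hH hk (fun S => Nd (sm z S) (la z S) ∧ Gd S)]
    congr 1
    refine Finset.filter_congr fun p hp => ?_
    rw [Fintype.mem_piFinset] at hp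
    rw [sm_fill hH hk.le hp, la_fill hH hk.le hp]
  have e2 : ((Fintype.piFinset fun i : J => CC z H i).filter fun p =>
      Nd S₀ (univ.image p)).card = ((RR X z H k V).filter fun S => ky z H S = (S₀, J) ∧
        Nd (sm z S) (la z S)).card := by
    rw [← key_bij hH hk (fun S => Nd (sm z S) (la z S))]
    congr 1
    refine Finset.filter_congr fun p hp => ?_
    rw [Fintype.mem_piFinset] at hp
    rw [sm_fill hH hk.le hp, la_fill hH hk.le hp]
  rw [e1, e2] at hbox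
  refine hbox.trans (add_le_add ?_ ?_)
  · have h3 : ((3 : ℝ) ^ S₀.card / 3 ^ Fintype.card J) ≤ (1 / 3) ^ V := by
      rw [hcJ, div_le_iff₀ (by positivity)]
      have h4 : (3 : ℝ) ^ (S₀.card + V) ≤ 3 ^ J.card :=
        pow_le_pow_right₀ (by norm_num) hfew.le
      have h5 : (1 / 3 : ℝ) ^ V * 3 ^ (S₀.card + V) = 3 ^ S₀.card := by
        rw [pow_add, mul_comm, mul_assoc, ← mul_pow]
        norm_num
      calc (3 : ℝ) ^ S₀.card = (1 / 3 : ℝ) ^ V * 3 ^ (S₀.card + V) := h5.symm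
        _ ≤ _ := by gcongr
    have h4 : (((RR X z H k V).filter fun S => ky z H S = (S₀, J) ∧
        Nd (sm z S) (la z S)).card : ℝ) ≤
        (((RR X z H k V).filter fun S => ky z H S = (S₀, J)).card : ℝ) := by
      have : (RR X z H k V).filter (fun S => ky z H S = (S₀, J) ∧ Nd (sm z S) (la z S)) ⊆
          (RR X z H k V).filter fun S => ky z H S = (S₀, J) := by
        intro S hS
        rw [Finset.mem_filter] at hS ⊢
        exact ⟨hS.1, hS.2.1⟩
      exact_mod_cast Finset.card_le_card this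
    gcongr
  · have hcard := hk.card
    have hJK : J.card ≤ k := by omega
    have hSK : S₀.card ≤ k := by omega
    obtain ⟨m, hm⟩ : ∃ m : ℕ, m = (@prs J _ lo).card := ⟨_, rfl⟩
    have hpr : m ≤ k * k := by
      rw [hm]
      refine (@prs_card J _ lo).trans ?_
      rw [hcJ]
      exact Nat.mul_le_mul hJK hJK
    rw [← hm]
    have hN0 : (0 : ℝ) < ((∏ p ∈ S₀, nrm p : ℕ) : ℝ) := by
      exact_mod_cast Finset.prod_pos fun p hp => pos_of (hk.cl p hp)
    have hprod : ∏ j : J, (((16 * XX H j.1.1 : ℕ)) : ℝ) ≤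
        16 ^ J.card * (X / ((∏ p ∈ S₀, nrm p : ℕ) : ℝ)) := by
      have h5 : ∏ j : J, (((16 * XX H j.1.1 : ℕ)) : ℝ) =
          16 ^ J.card * ((∏ k ∈ J, XX H k.1 : ℕ) : ℝ) := by
        rw [← Finset.prod_coe_sort J (fun k => XX H k.1)]
        push_cast
        rw [Finset.prod_mul_distrib, Finset.prod_const, Finset.card_univ, hcJ]
      rw [h5]
      apply mul_le_mul_of_nonneg_left _ (by positivity)
      rw [le_div_iff₀ hN0, mul_comm]
      exact_mod_cast hk.prod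
    have h16 : (16 : ℝ) ^ J.card ≤ 3 ^ (3 * (k * k)) := by
      have h7 : k ≤ k * k := by
        rcases Nat.eq_zero_or_pos k with h | h
        · rw [h]
        · exact Nat.le_mul_of_pos_left k h
      calc (16 : ℝ) ^ J.card ≤ 27 ^ J.card := by
            apply pow_le_pow_left₀ <;> norm_num
        _ = 3 ^ (3 * J.card) := by rw [pow_mul]; norm_num
        _ ≤ 3 ^ (3 * (k * k)) := pow_le_pow_right₀ (by norm_num) (by omega)
    have h5 : (3 : ℝ) ^ (S₀.card * Fintype.card J + m) * 16 ^ J.card ≤ 3 ^ (9 * k ^ 2) := by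
      have hexp : S₀.card * Fintype.card J + m ≤ 2 * (k * k) := by
        rw [hcJ]
        have h6 : S₀.card * J.card ≤ k * k := Nat.mul_le_mul hSK hJK
        omega
      calc (3 : ℝ) ^ (S₀.card * Fintype.card J + m) * 16 ^ J.card ≤
            3 ^ (2 * (k * k)) * 3 ^ (3 * (k * k)) := by
              apply mul_le_mul (pow_le_pow_right₀ (by norm_num) hexp) h16 (by positivity)
                (by positivity)
        _ = 3 ^ (5 * (k * k)) := by rw [← pow_add]; congr 1; ring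
        _ ≤ 3 ^ (9 * k ^ 2) := pow_le_pow_right₀ (by norm_num) (by nlinarith)
    have hY : (0 : ℝ) ≤ X / ((∏ p ∈ S₀, nrm p : ℕ) : ℝ) := dnn _ _
    calc (3 : ℝ) ^ (S₀.card * Fintype.card J + m) *
        (κ * ∏ j : J, (((16 * XX H j.1.1 : ℕ)) : ℝ)) ≤
        3 ^ (S₀.card * Fintype.card J + m) *
          (κ * (16 ^ J.card * (X / ((∏ p ∈ S₀, nrm p : ℕ) : ℝ)))) := by
          apply mul_le_mul_of_nonneg_left _ (by positivity)
          exact mul_le_mul_of_nonneg_left hprod hκ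
      _ = (3 ^ (S₀.card * Fintype.card J + m) * 16 ^ J.card) *
          (κ * (X / ((∏ p ∈ S₀, nrm p : ℕ) : ℝ))) := by ring
      _ ≤ 3 ^ (9 * k ^ 2) * (κ * (X / ((∏ p ∈ S₀, nrm p : ℕ) : ℝ))) :=
          mul_le_mul_of_nonneg_right h5 (mul_nonneg hκ hY)
      _ = _ := by ring

theorem card_sub {α : Type} [DecidableEq α] (A : Finset α) (K : ℕ) :
    (A.powerset.filter fun J => J.card ≤ K).card ≤ (A.card + 1) ^ K := by
  induction K with
  | zero =>
    have : A.powerset.filter (fun J => J.card ≤ 0) ⊆ {∅} := by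
      intro J hJ
      rw [Finset.mem_filter, Nat.le_zero, Finset.card_eq_zero] at hJ
      rw [hJ.2]
      exact Finset.mem_singleton_self _
    exact Finset.card_le_card this
  | succ K ih =>
    set P := A.powerset.filter fun J => J.card ≤ K with hP
    have h1 : A.powerset.filter (fun J => J.card ≤ K + 1) ⊆
        P ∪ (A ×ˢ P).image fun t => insert t.1 t.2 := by
      intro J hJ
      rw [Finset.mem_filter, Finset.mem_powerset] at hJ
      rw [Finset.mem_union]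
      rcases J.eq_empty_or_nonempty with h | ⟨x, hx⟩
      · left
        rw [hP, Finset.mem_filter, Finset.mem_powerset, h]
        exact ⟨Finset.empty_subset _, by simp⟩
      · right
        rw [Finset.mem_image]
        refine ⟨(x, J.erase x), ?_, Finset.insert_erase hx⟩
        rw [Finset.mem_product, hP, Finset.mem_filter, Finset.mem_powerset]
        refine ⟨hJ.1 hx, (Finset.erase_subset _ _).trans hJ.1, ?_⟩
        rw [Finset.card_erase_of_mem hx]
        omega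
    refine (Finset.card_le_card h1).trans ((Finset.card_union_le _ _).trans ?_)
    have h2 : ((A ×ˢ P).image fun t => insert t.1 t.2).card ≤ A.card * P.card := by
      refine Finset.card_image_le.trans ?_
      rw [Finset.card_product]
    rw [pow_succ]
    nlinarith

/-- the sum of the inverse norms of the squarefree primary elements -/
theorem harm_SB (X : ℕ) (hX : 1 ≤ X) : ∑ n ∈ SB X, (1 : ℝ) / (nrm n : ℝ) ≤
    ((SB X).card : ℝ) / X + 16 * ∑ m ∈ Icc 2 X, (1 : ℝ) / m := by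
  induction X, hX using Nat.le_induction with
  | base =>
    have h1 : ∀ n ∈ SB 1, (1 : ℝ) / (nrm n : ℝ) = 1 := by
      intro n hn
      rw [mem_SB] at hn
      have h2 := nrm_pos' hn.2.ne
      have h3 : nrm n = 1 := by omega
      rw [h3]
      norm_num
    rw [Finset.sum_congr rfl h1]
    simp
  | succ X hX ih =>
    have hX0 : (0 : ℝ) < X := by exact_mod_cast hX
    have hsub : SB X ⊆ SB (X + 1) := by
      intro n hn
      rw [mem_SB] at hn ⊢
      exact ⟨by omega, hn.2⟩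
    have h1 : ∀ n ∈ SB (X + 1) \ SB X, (1 : ℝ) / (nrm n : ℝ) = 1 / ((X : ℝ) + 1) := by
      intro n hn
      rw [Finset.mem_sdiff, mem_SB, mem_SB] at hn
      have h3 : nrm n = X + 1 := by
        by_contra h
        exact hn.2 ⟨by omega, hn.1.2⟩
      rw [h3]
      push_cast
      rfl
    have h2 := Finset.sum_sdiff (f := fun n => (1 : ℝ) / (nrm n : ℝ)) hsub
    rw [Finset.sum_congr rfl h1, Finset.sum_const, Finset.card_sdiff_of_subset hsub,
      nsmul_eq_mul, Nat.cast_sub (Finset.card_le_card hsub)] at h2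
    rw [← h2]
    have h3 : ∑ m ∈ Icc 2 (X + 1), (1 : ℝ) / m = ∑ m ∈ Icc 2 X, (1 : ℝ) / m + 1 / ((X : ℝ) + 1) := by
      rw [Finset.sum_Icc_succ_top (by omega)]
      push_cast
      rfl
    rw [h3]
    have h4 := card_SB_le hX
    have h5 : ((SB X).card : ℝ) / X - ((SB X).card : ℝ) / (X + 1) ≤ 16 / (X + 1) := by
      rw [div_sub_div _ _ hX0.ne' (by positivity), div_le_div_iff₀ (by positivity) (by positivity)]
      nlinarith
    have h6 : (((SB (X + 1)).card : ℝ) - ((SB X).card : ℝ)) * (1 / ((X : ℝ) + 1)) =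
        ((SB (X + 1)).card : ℝ) / (X + 1) - ((SB X).card : ℝ) / (X + 1) := by ring
    rw [h6]
    push_cast
    have h7 : 16 * (∑ m ∈ Icc 2 X, (1 : ℝ) / m + 1 / ((X : ℝ) + 1)) =
        16 * ∑ m ∈ Icc 2 X, (1 : ℝ) / m + 16 / (X + 1) := by ring
    rw [h7]
    linarith

theorem harm_SB' (X : ℕ) (hX : 1 ≤ X) : ∑ n ∈ SB X, (1 : ℝ) / (nrm n : ℝ) ≤
    3 ^ 9 * (1 + Real.log X) := by
  have h1 := harm_SB X hX
  have h2 := card_SB_le hX
  have hX0 : (0 : ℝ) < X := by exact_mod_cast hX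
  have h3 : ((SB X).card : ℝ) / X ≤ 16 := by
    rw [div_le_iff₀ hX0]
    exact h2
  have h4 := harmonic_le_one_add_log X
  rw [harmonic_eq_sum_Icc] at h4
  push_cast at h4
  have h5 : ∑ m ∈ Icc 2 X, (1 : ℝ) / m ≤ ∑ m ∈ Icc 1 X, ((m : ℝ))⁻¹ := by
    calc ∑ m ∈ Icc 2 X, (1 : ℝ) / m = ∑ m ∈ Icc 2 X, ((m : ℝ))⁻¹ := by
          refine Finset.sum_congr rfl fun m _ => one_div _
      _ ≤ _ := by
        refine Finset.sum_le_sum_of_subset_of_nonneg ?_ fun _ _ _ => by positivity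
        exact Finset.Icc_subset_Icc (by norm_num) le_rfl
  have h6 : 0 ≤ Real.log X := Real.log_natCast_nonneg X
  nlinarith

/-- the sets of primes with product at most `X` -/
noncomputable def TT (X : ℕ) : Finset (Finset Ei) :=
  (QB X).powerset.filter fun S => (∀ q ∈ S, Pq q) ∧ ∏ p ∈ S, nrm p ≤ X

theorem mem_TT {X : ℕ} {S : Finset Ei} (h : ∀ q ∈ S, Pq q) (hX : ∏ p ∈ S, nrm p ≤ X) :
    S ∈ TT X := by
  unfold TT
  rw [Finset.mem_filter, Finset.mem_powerset]
  refine ⟨fun q hq => ?_, h, hX⟩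
  rw [mem_QB]
  have h1 : nrm q ∣ ∏ p ∈ S, nrm p := Finset.dvd_prod_of_mem _ hq
  have h2 : 0 < ∏ p ∈ S, nrm p := Finset.prod_pos fun p hp => pos_of (h p hp)
  exact ⟨(Nat.le_of_dvd h2 h1).trans hX, h q hq⟩

theorem harm_TT (X : ℕ) (hX : 1 ≤ X) :
    ∑ S ∈ TT X, (1 : ℝ) / ((∏ p ∈ S, nrm p : ℕ) : ℝ) ≤ 3 ^ 9 * (1 + Real.log X) := by
  have h1 : ∑ S ∈ TT X, (1 : ℝ) / ((∏ p ∈ S, nrm p : ℕ) : ℝ) =
      ∑ n ∈ (TT X).image (fun S => ∏ p ∈ S, p), (1 : ℝ) / (nrm n : ℝ) := by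
    rw [Finset.sum_image]
    · refine Finset.sum_congr rfl fun S _ => ?_
      rw [nrm_prod]
    intro S hS T hT h
    unfold TT at hS hT
    rw [Finset.mem_coe, Finset.mem_filter] at hS hT
    rw [← (PS_prod hS.2.1).2, ← (PS_prod hT.2.1).2]
    exact congrArg _ h
  have h2 : (TT X).image (fun S => ∏ p ∈ S, p) ⊆ SB X := by
    intro n hn
    rw [Finset.mem_image] at hn
    obtain ⟨S, hS, rfl⟩ := hn
    unfold TT at hS
    rw [Finset.mem_filter] at hS
    rw [mem_SB, nrm_prod]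
    exact ⟨hS.2.2, (PS_prod hS.2.1).1⟩
  rw [h1]
  exact (Finset.sum_le_sum_of_subset_of_nonneg h2 fun _ _ _ => onn _).trans
    (harm_SB' X hX)

/-- **XK-KEY.** -/
theorem t_KEY : S_KEY := by
  intro hB1 hEQ hLA hBOX
  obtain ⟨C₁, hC₁, h1⟩ := hB1
  refine ⟨C₁, hC₁, ?_⟩
  intro X z H k V N κ hX hH hz hκ hκz hN
  set T := (RR X z H k V).image (ky z H) with hT
  set B : ℝ := 3 ^ (9 * k ^ 2) * κ with hB
  have hB0 : 0 ≤ B := by positivity
  have hfib : ∀ (P : Finset Ei → Prop) [DecidablePred P],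
      (((RR X z H k V).filter fun S => P S).card : ℝ) =
      ∑ e ∈ T, (((RR X z H k V).filter fun S => ky z H S = e ∧ P S).card : ℝ) := by
    intro P _
    rw [Finset.card_eq_sum_card_fiberwise (f := ky z H) (t := T) (by
      intro S hS
      rw [Finset.mem_coe, Finset.mem_filter] at hS
      exact Finset.mem_coe.2 (Finset.mem_image_of_mem _ hS.1))]
    push_cast
    refine Finset.sum_congr rfl fun e _ => ?_
    rw [Finset.filter_filter]
    exact congrArg _ (fcc fun x _ => and_comm)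
  have hKP : ∀ e ∈ T, KP X z H k V e.1 e.2 := by
    intro e he
    rw [hT, Finset.mem_image] at he
    obtain ⟨S, hS, rfl⟩ := he
    obtain ⟨f1, f2, f3⟩ := rr_facts hS
    exact (rr_iff hH f1 (inj_ph f2)).1 hS
  have hf1 := hfib fun S => Nd (sm z S) (la z S) ∧ Gd S
  have hf2 := hfib fun S => Nd (sm z S) (la z S)
  have hf3 := hfib fun _ => True
  simp only [and_true, Finset.filter_true] at hf3
  rw [hf1, hf2, hf3, Finset.mul_sum, ← Finset.sum_sub_distrib]
  refine (Finset.abs_sum_le_sum_abs _ _).trans ?_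
  have h3 : ∀ e ∈ T, |(((RR X z H k V).filter fun S => ky z H S = e ∧
        (Nd (sm z S) (la z S) ∧ Gd S)).card : ℝ) -
      c9 * (((RR X z H k V).filter fun S => ky z H S = e ∧
        Nd (sm z S) (la z S)).card : ℝ)| ≤
      3 * (1 / 3 : ℝ) ^ V * (((RR X z H k V).filter fun S => ky z H S = e).card : ℝ) +
      B * (X / ((∏ p ∈ e.1, nrm p : ℕ) : ℝ)) := by
    intro e he
    obtain ⟨S₀, J⟩ := e
    have hk' := hKP _ he
    exact per_key hBOX hEQ hLA hH hκ hk' (hb_box h1 hH hz hκ hκz)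
  refine (Finset.sum_le_sum h3).trans ?_
  rw [Finset.sum_add_distrib, ← Finset.mul_sum]
  refine add_le_add le_rfl ?_
  have hsub : T ⊆ (TT X) ×ˢ ((range N ×ˢ range 9).powerset.filter fun J => J.card ≤ k) := by
    intro e he
    have hk' := hKP e he
    rw [hT, Finset.mem_image] at he
    obtain ⟨S, hS, rfl⟩ := he
    obtain ⟨f1, f2, f3⟩ := rr_facts hS
    rw [Finset.mem_product, Finset.mem_filter, Finset.mem_powerset]
    refine ⟨mem_TT (fun q hq => hk'.cl q hq) ?_, ?_, ?_⟩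
    · refine le_trans ?_ f3
      exact Nat.le_of_dvd (Finset.prod_pos fun p hp => pos_of (f1 p hp))
        (Finset.prod_dvd_prod_of_subset _ _ _ (Finset.filter_subset _ _))
    · intro e he
      unfold ky at he
      rw [Finset.mem_image] at he
      obtain ⟨q, hq, rfl⟩ := he
      have hqS := (Finset.mem_filter.1 hq).1
      have hq0 := pos_of (f1 q hqS)
      have hqX : nrm q ≤ X := by
        refine le_trans ?_ f3
        exact Nat.le_of_dvd (Finset.prod_pos fun p hp => pos_of (f1 p hp))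
          (Finset.dvd_prod_of_mem _ hqS)
      unfold ph
      rw [Finset.mem_product, Finset.mem_range, Finset.mem_range]
      refine ⟨?_, Nat.mod_lt _ (by norm_num)⟩
      have h3 : ((jj H (nrm q) : ℕ) : ℝ) < N := by
        refine lt_of_le_of_lt (Nat.floor_le (mul_nonneg (Nat.cast_nonneg _)
          (Real.log_nonneg (by exact_mod_cast hq0)))) ?_
        refine lt_of_le_of_lt ?_ hN
        refine mul_le_mul_of_nonneg_left ?_ (Nat.cast_nonneg _)
        exact Real.log_le_log (by exact_mod_cast hq0) (by exact_mod_cast hqX)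
      exact_mod_cast h3
    · have := hk'.card
      omega
  refine (Finset.sum_le_sum_of_subset_of_nonneg hsub fun _ _ _ =>
    mul_nonneg hB0 (dnn _ _)).trans ?_
  rw [Finset.sum_product]
  simp only [Finset.sum_const, nsmul_eq_mul]
  rw [← Finset.mul_sum]
  have h4 : ((((range N ×ˢ range 9).powerset.filter fun J => J.card ≤ k).card : ℕ) : ℝ) ≤
      (9 * N + 9 : ℝ) ^ k := by
    have h5 := card_sub (range N ×ˢ range 9) k
    rw [Finset.card_product, Finset.card_range, Finset.card_range] at h5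
    calc ((((range N ×ˢ range 9).powerset.filter fun J => J.card ≤ k).card : ℕ) : ℝ) ≤
          (((N * 9 + 1) ^ k : ℕ) : ℝ) := by exact_mod_cast h5
      _ = (N * 9 + 1 : ℝ) ^ k := by push_cast; ring
      _ ≤ _ := by
        apply pow_le_pow_left₀ (by positivity)
        have : (0 : ℝ) ≤ N := Nat.cast_nonneg _
        linarith
  have h5 : ∑ S ∈ TT X, B * (X / ((∏ p ∈ S, nrm p : ℕ) : ℝ)) ≤
      (3 ^ (9 * k ^ 2 + 9) * κ) * (X * (1 + Real.log X)) := by
    have h6 : ∀ S ∈ TT X, B * ((X : ℝ) / ((∏ p ∈ S, nrm p : ℕ) : ℝ)) =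
        B * X * (1 / ((∏ p ∈ S, nrm p : ℕ) : ℝ)) := by
      intro S _
      ring
    rw [Finset.sum_congr rfl h6, ← Finset.mul_sum]
    have h7 := mul_le_mul_of_nonneg_left (harm_TT X hX) (mul_nonneg hB0 (Nat.cast_nonneg X))
    refine h7.trans (le_of_eq ?_)
    rw [hB, pow_add]
    ring
  have h6 : 0 ≤ ∑ S ∈ TT X, B * ((X : ℝ) / ((∏ p ∈ S, nrm p : ℕ) : ℝ)) :=
    Finset.sum_nonneg fun _ _ => mul_nonneg hB0 (dnn _ _)
  rw [mul_assoc]
  exact mul_le_mul h4 h5 h6 (pow_nonneg (by linarith [(Nat.cast_nonneg N : (0 : ℝ) ≤ N)]) _)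

end Pool.Agent.Y161.XK
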